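import Pool.Agent.Helper76.S4.SepW
import Pool.Agent.Helper57.S4.Loc

/-!
# MIX: `loc21` without hypotheses
-/

set_option autoImplicit false

namespace Pool.Agent.Helper76.S4

open Pool.Agent.Helper85.Exp Pool.Agent.Helper2.PD Pool.Agent.Helper43.Pln Pool.Agent.Helper57.S4 Pool.Agent.Helper60.S4
open Pool.Agent.Helper69.S4 (Sec)

variable {P : Type} [Fintype P] {G : Sh P}

/-- (M3) -/
theorem sepData (hG : Plane G) {a : P} (δ : Bool) (U V : P) (hne : ¬ S G U V)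
    (hUV : ∀ e, S G a e → G.lf (G.nxt e) = δ → S G U (G.nxt e) ∨ S G V (G.nxt e))
    (hU : ∃ e, S G a e ∧ G.lf (G.nxt e) = δ ∧ S G U (G.nxt e)) (hV : ∃ e, S G a e ∧ G.lf (G.nxt e) = δ ∧ S G V (G.nxt e))
    (hVA : ∀ p, S G V p → G.lf p = δ ∧ S G a (G.op p)) : SepData G δ a U V := by
  obtain ⟨a', M, j, h1, h2, h3, h4, h5, h6, h7, h8, -⟩ := SepW.sep hG hUV hne hU hV (fun f hf => by
    have h := (hVA _ (S_sq hf)).2
    rw [op_sq] at h
    exact h)
  exact ⟨a', M, j, h1, h3, h2, h4, h5, h6, h7, h8⟩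

/-- Rigid circles of the second kind. -/
theorem loc21 (hG : Plane G) {s : ℂ} (hs : Sec s) {c : Face G → ℂ} (hc : Col G s c) {a : P} (h : Rig21 G a) {e : P} (he : Same G a e) :
    c (Lf G (sq G e)) = c (Lf G e) ∧ c (Rf G (sq G e)) = c (Rf G e) :=
  loc21_of hG.cross hs hc h (fun δ U V => sepData hG δ U V) he

end Pool.Agent.Helper76.S4
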