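import Pool.Agent.Helper57.S4.Walk
import Pool.Agent.Helper43.PD.Plane

/-!
# (ANN): two adjacent Seifert circles

Let `b` be the circle of `p` and `c` the circle of `op p` at a crossing (`lf p = true`). If `c` is the only circle on the right of `b`
and `b` is the only circle on the left of `c`, then the next crossing of `b` and `c` along `b` is also the next one along `c`.
-/

set_option autoImplicit false

namespace Pool.Agent.Helper76.S4.Ann

open Pool.Agent.Helper85.Exp Pool.Agent.Helper2.PD Pool.Agent.Helper43.Pln Pool.Agent.Helper57.S4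

variable {P : Type} {G : Sh P}

/-- multiplicity of `f` in the first `n` edges of the walk from `x` -/
noncomputable def cnt (G : Sh P) (n : ℕ) (x f : P) : ℤ :=
  open scoped Classical in ∑ i ∈ Finset.range n, if (sq G)^[i] x = f then 1 else 0

theorem cnt_nonneg (n : ℕ) (x f : P) : 0 ≤ cnt G n x f := by
  unfold cnt
  exact Finset.sum_nonneg fun i _ => by split_ifs <;> norm_num

theorem cnt_pos {n i : ℕ} (hi : i < n) {x f : P} (h : (sq G)^[i] x = f) : 1 ≤ cnt G n x f := by
  classical
  unfold cnt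
  refine le_trans ?_ (Finset.single_le_sum (f := fun i => if (sq G)^[i] x = f then (1 : ℤ) else 0)
    (fun j _ => by split_ifs <;> norm_num) (Finset.mem_range.2 hi))
  simp only [h, if_true]
  exact le_rfl

theorem cnt_exists {n : ℕ} {x f : P} (h : cnt G n x f ≠ 0) : ∃ i < n, (sq G)^[i] x = f := by
  classical
  unfold cnt at h
  obtain ⟨i, hi, h1⟩ := Finset.exists_ne_zero_of_sum_ne_zero h
  refine ⟨i, Finset.mem_range.1 hi, ?_⟩
  by_contra h2
  exact h1 (if_neg h2)

theorem cnt_zero {n : ℕ} {x f : P} (h : ∀ i < n, (sq G)^[i] x ≠ f) : cnt G n x f = 0 := by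
  by_contra h1
  obtain ⟨i, hi, h2⟩ := cnt_exists h1
  exact h i hi h2

theorem cnt_one {n : ℕ} {x : P} (h : ∀ i, 0 < i → i < n + 1 → (sq G)^[i] x ≠ x) : cnt G (n + 1) x x = 1 := by
  classical
  unfold cnt
  rw [Finset.sum_eq_single 0]
  · simp
  · intro i hi h0
    rw [if_neg (h i (Nat.pos_of_ne_zero h0) (Finset.mem_range.1 hi))]
  · intro h0
    exact absurd (Finset.mem_range.2 (Nat.succ_pos n)) h0

theorem cnt_prev (n : ℕ) (x r : P) : cnt G n x ((seifert G).symm r) =
    cnt G n x r - (open scoped Classical in if x = r then 1 else 0) +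
      (open scoped Classical in if (sq G)^[n] x = r then 1 else 0) := by
  classical
  have h1 : ∀ i, ((sq G)^[i] x = (seifert G).symm r) ↔ ((sq G)^[i + 1] x = r) := by
    intro i
    rw [Function.iterate_succ_apply', Equiv.eq_symm_apply]
    rfl
  unfold cnt
  have h2 : ∑ i ∈ Finset.range n, (if (sq G)^[i] x = (seifert G).symm r then (1 : ℤ) else 0) =
      ∑ i ∈ Finset.range n, (if (sq G)^[i + 1] x = r then (1 : ℤ) else 0) :=
    Finset.sum_congr rfl fun i _ => by simp only [h1 i]
  rw [h2]
  have h3 := Finset.sum_range_succ (fun i => if (sq G)^[i] x = r then (1 : ℤ) else 0) n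
  have h4 := Finset.sum_range_succ' (fun i => if (sq G)^[i] x = r then (1 : ℤ) else 0) n
  have h5 : (if (sq G)^[0] x = r then (1 : ℤ) else 0) = if x = r then 1 else 0 := rfl
  rw [h5] at h4
  linarith

theorem iter_eq (i : ℕ) (x : P) : (sq G)^[i] x = ((seifert G) ^ i) x := by
  rw [← Equiv.Perm.iterate_eq_pow]
  rfl

theorem same_iter (i : ℕ) (x : P) : (seifert G).SameCycle x ((sq G)^[i] x) := by
  rw [iter_eq]
  exact ⟨i, by rw [zpow_natCast]⟩

theorem same_sq {x e : P} : (seifert G).SameCycle x (sq G e) ↔ (seifert G).SameCycle x e :=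
  Equiv.Perm.sameCycle_apply_right

theorem same_ind {x : P} [Finite P] {p : P → Prop} (h0 : p x) (hs : ∀ e, (seifert G).SameCycle x e → p e → p (sq G e)) {e : P}
    (he : (seifert G).SameCycle x e) : p e := by
  obtain ⟨n, hn⟩ := he.exists_nat_pow_eq
  rw [← iter_eq] at hn
  have h1 : ∀ i, p ((sq G)^[i] x) := by
    intro i
    induction i with
    | zero => exact h0
    | succ i ih =>
      rw [Function.iterate_succ_apply']
      exact hs _ (same_iter i x) ih
  rw [← hn]
  exact h1 n

/-- **(ANN)** -/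
theorem ann [Fintype P] (hG : Plane G) {p : P} (hp : G.lf p = true)
    (hb : ∀ e, (seifert G).SameCycle p e → G.lf (G.nxt e) = false → (seifert G).SameCycle (G.op p) (G.nxt e))
    (hc : ∀ e, (seifert G).SameCycle (G.op p) e → G.lf (G.nxt e) = true → (seifert G).SameCycle p (G.nxt e)) :
    ∃ a b : ℕ, (∀ i < a, G.lf (G.nxt ((sq G)^[i] p)) = true) ∧ G.lf (G.nxt ((sq G)^[a] p)) = false ∧
      (∀ i < b, G.lf (G.nxt ((sq G)^[i] (G.op p))) = false) ∧ G.lf (G.nxt ((sq G)^[b] (G.op p))) = true ∧
      G.nxt ((sq G)^[a] p) = sq G ((sq G)^[b] (G.op p)) := by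
  classical
  have ho := hG.cross
  set σ := seifert G with hσ
  have hsq : ∀ e, σ e = sq G e := fun _ => rfl
  -- `a`
  have hlop : G.lf (G.op p) = false := by rw [lf_op' ho, hp]; rfl
  have ha : ∃ a : ℕ, G.lf (G.nxt ((sq G)^[a] p)) = false := by
    obtain ⟨n, hn⟩ := (Equiv.Perm.SameCycle.symm (f := σ) (x := σ.symm p) (y := p)
      ⟨1, by rw [zpow_one, Equiv.apply_symm_apply]⟩).exists_nat_pow_eq
    refine ⟨n, ?_⟩
    rw [iter_eq, hn]
    have h1 : G.nxt (σ.symm p) = G.op p := Equiv.apply_symm_apply _ _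
    rw [h1, hlop]
  obtain ⟨a, ha1, ha2⟩ : ∃ a : ℕ, G.lf (G.nxt ((sq G)^[a] p)) = false ∧ ∀ i < a, G.lf (G.nxt ((sq G)^[i] p)) = true :=
    ⟨Nat.find ha, Nat.find_spec ha, fun i hi => by
      have := Nat.find_min ha hi
      simpa using this⟩
  -- `b`
  have hq := hb _ (same_iter a p) ha1
  have hbe : ∃ b : ℕ, (sq G)^[b + 1] (G.op p) = G.nxt ((sq G)^[a] p) := by
    obtain ⟨i, hi, -, h1⟩ := hq.exists_pow_eq''
    refine ⟨i - 1, ?_⟩
    rw [Nat.sub_add_cancel hi, iter_eq]
    exact h1
  obtain ⟨b, hb1, hb2⟩ : ∃ b : ℕ, (sq G)^[b + 1] (G.op p) = G.nxt ((sq G)^[a] p) ∧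
      ∀ j < b, (sq G)^[j + 1] (G.op p) ≠ G.nxt ((sq G)^[a] p) :=
    ⟨Nat.find hbe, Nat.find_spec hbe, fun j hj => Nat.find_min hbe hj⟩
  -- no return to the start
  have hpa : ∀ i, 0 < i → i < a + 1 → (sq G)^[i] p ≠ p := by
    intro i h0 h1 h2
    obtain ⟨i, rfl⟩ : ∃ k, i = k + 1 := ⟨i - 1, by omega⟩
    rw [Function.iterate_succ_apply'] at h2
    have h3 := ha2 i (by omega)
    have h4 := lf_sq ho ((sq G)^[i] p)
    rw [h2, h3, hp] at h4
    cases h4
  have hpb : ∀ j, 0 < j → j < b + 1 → (sq G)^[j] (G.op p) ≠ G.op p := by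
    intro j h0 h1 h2
    have h3 : (sq G)^[b - j + 1] (G.op p) = G.nxt ((sq G)^[a] p) := by
      have h4 : (b - j + 1) + j = b + 1 := by omega
      have h5 := Function.iterate_add_apply (sq G) (b - j + 1) j (G.op p)
      rw [h2, h4, hb1] at h5
      exact h5.symm
    exact hb2 _ (by omega) h3
  -- the circulation
  set y : P → ℤ := fun f => cnt G (a + 1) p f - cnt G (b + 1) (G.op p) f with hy
  have hcirc : Circ G y := by
    intro r
    have e1 : G.nxt.symm r = σ.symm (G.op r) := by
      show G.nxt.symm r = G.nxt.symm (G.op (G.op r))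
      rw [G.op_op]
    have e2 : G.nxt.symm (G.op r) = σ.symm r := rfl
    have e3 : (sq G)^[a + 1] p = G.op ((sq G)^[b + 1] (G.op p)) := by
      rw [hb1, Function.iterate_succ_apply']
      rfl
    have e4 : ∀ u v : P, (G.op u = v) ↔ (u = G.op v) := fun u v =>
      ⟨fun h => by rw [← h, G.op_op], fun h => by rw [h, G.op_op]⟩
    rw [e1, e2]
    simp only [hy, hσ, cnt_prev, e3, e4, G.op_op]
    ring
  obtain ⟨h, hh⟩ := circ_int hG.conn ho hG.genus y hcirc
  -- the levels
  obtain ⟨κ, hκ⟩ := exists_kappa hG.conn ho hG.genus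
  have hlev : ∀ x e, σ.SameCycle x e → κ (Lf G e) = κ (Lf G x) := by
    intro x e he
    refine same_ind (x := x) (p := fun e => κ (Lf G e) = κ (Lf G x)) rfl ?_ he
    intro e _ ih
    cases hl : G.lf (G.nxt e) with
    | false => rw [right_W ho hl]; exact ih
    | true =>
      have h1 := hκ (sq G e)
      have h2 := hκ e
      rw [left_E ho hl] at h1
      rw [h1, ← h2, ih]
  have hlop' : κ (Lf G (G.op p)) = κ (Lf G p) - 1 := by
    have h1 := hκ p
    rw [corner_N hp] at h1
    omega
  have hbc : ∀ f, σ.SameCycle p f → ¬ σ.SameCycle (G.op p) f := by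
    intro f h1 h2
    have h3 := hlev _ _ h1
    have h4 := hlev _ _ h2
    omega
  have hyb : ∀ f, σ.SameCycle p f → y f = cnt G (a + 1) p f := by
    intro f hf
    have : cnt G (b + 1) (G.op p) f = 0 := cnt_zero fun i _ hi => hbc f hf (hi ▸ same_iter i _)
    simp only [hy, this, sub_zero]
  have hyc : ∀ f, σ.SameCycle (G.op p) f → y f = - cnt G (b + 1) (G.op p) f := by
    intro f hf
    have : cnt G (a + 1) p f = 0 := cnt_zero fun i _ hi => hbc f (hi ▸ same_iter i _) hf
    simp only [hy, this, zero_sub]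
  have hy0 : ∀ f, ¬ σ.SameCycle p f → ¬ σ.SameCycle (G.op p) f → h (Lf G f) = h (Rf G f) := by
    intro f h1 h2
    have h3 : cnt G (a + 1) p f = 0 := cnt_zero fun i _ hi => h1 (hi ▸ same_iter i _)
    have h4 : cnt G (b + 1) (G.op p) f = 0 := cnt_zero fun i _ hi => h2 (hi ▸ same_iter i _)
    have h5 := hh f
    simp only [hy, h3, h4] at h5
    omega
  -- the left side of the circle of `p`
  have hL : ∀ e, σ.SameCycle p e → h (Lf G e) = h (Lf G p) := by
    intro e he
    refine same_ind (x := p) (p := fun e => h (Lf G e) = h (Lf G p)) rfl ?_ he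
    intro e he ih
    cases hl : G.lf (G.nxt e) with
    | false => rw [right_W ho hl]; exact ih
    | true =>
      -- the circle on the left
      have k1 : κ (Lf G (G.nxt e)) = κ (Lf G p) + 1 := by
        have h1 := hκ (G.nxt e)
        rw [left_N hl] at h1
        rw [h1, hlev p (sq G e) (same_sq.2 he)]
      have n1 : ¬ σ.SameCycle p (G.nxt e) := fun h1 => by have := hlev _ _ h1; omega
      have n2 : ¬ σ.SameCycle (G.op p) (G.nxt e) := fun h1 => by have := hlev _ _ h1; omega
      -- the other edge entering the crossing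
      have e1 : sq G (G.nxt.symm (G.op (G.nxt e))) = G.nxt e := by
        show G.op (G.nxt (G.nxt.symm (G.op (G.nxt e)))) = G.nxt e
        rw [Equiv.apply_symm_apply, G.op_op]
      have n3 : ¬ σ.SameCycle p (G.nxt.symm (G.op (G.nxt e))) := fun h1 => n1 (by
        rw [← e1]; exact same_sq.2 h1)
      have n4 : ¬ σ.SameCycle (G.op p) (G.nxt.symm (G.op (G.nxt e))) := fun h1 => n2 (by
        rw [← e1]; exact same_sq.2 h1)
      have w1 := corner_W hl (ho _)
      have s1 := corner_S hl
      rw [Equiv.symm_apply_apply] at s1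
      rw [← left_N hl, ← hy0 _ n1 n2, w1, hy0 _ n3 n4, ← s1]
      exact ih
  -- the right side of the circle of `op p`
  have hR : ∀ e, σ.SameCycle (G.op p) e → h (Rf G e) = h (Rf G (G.op p)) := by
    intro e he
    refine same_ind (x := G.op p) (p := fun e => h (Rf G e) = h (Rf G (G.op p))) rfl ?_ he
    intro e he ih
    cases hl : G.lf (G.nxt e) with
    | true => rw [left_E ho hl]; exact ih
    | false =>
      have hl2 := right_lf ho hl
      have hN := corner_N hl2
      have hop : G.op (sq G e) = G.nxt e := op_sq e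
      rw [hop] at hN
      have k1 : κ (Lf G (G.nxt e)) = κ (Lf G (G.op p)) - 1 := by
        have h1 := hκ (sq G e)
        rw [hN, hlev _ _ (same_sq.2 he)] at h1
        omega
      have n1 : ¬ σ.SameCycle p (G.nxt e) := fun h1 => by have := hlev _ _ h1; omega
      have n2 : ¬ σ.SameCycle (G.op p) (G.nxt e) := fun h1 => by have := hlev _ _ h1; omega
      have e1 : sq G (G.nxt.symm (sq G e)) = G.nxt e := by
        show G.op (G.nxt (G.nxt.symm (sq G e))) = G.nxt e
        rw [Equiv.apply_symm_apply, hop]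
      have n3 : ¬ σ.SameCycle p (G.nxt.symm (sq G e)) := fun h1 => n1 (by
        rw [← e1]; exact same_sq.2 h1)
      have n4 : ¬ σ.SameCycle (G.op p) (G.nxt.symm (sq G e)) := fun h1 => n2 (by
        rw [← e1]; exact same_sq.2 h1)
      have s1 := right_S ho hl
      have E1 := corner_E hl2 (ho _)
      rw [hop] at E1
      rw [hN, hy0 _ n1 n2, ← E1, ← hy0 _ n3 n4, s1]
      exact ih
  -- all crossings of the two circles
  have hsum : ∀ q, G.lf q = true → σ.SameCycle p q → σ.SameCycle (G.op p) (G.op q) →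
      y q + y (G.op q) = h (Lf G p) - h (Rf G (G.op p)) := by
    intro q h1 h2 h3
    rw [hh q, hh (G.op q), hL q h2, hR _ h3, corner_N h1]
    ring
  have h00 := hsum p hp (Equiv.Perm.SameCycle.refl _ _) (Equiv.Perm.SameCycle.refl _ _)
  rw [hyb p (Equiv.Perm.SameCycle.refl _ _), hyc _ (Equiv.Perm.SameCycle.refl _ _), cnt_one hpa, cnt_one hpb] at h00
  have hlast : G.lf (G.nxt ((sq G)^[b] (G.op p))) = true := by
    have h1 := lf_sq ho ((sq G)^[b] (G.op p))
    rw [← Function.iterate_succ_apply' (sq G), hb1, ha1] at h1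
    cases h2 : G.lf (G.nxt ((sq G)^[b] (G.op p))) with
    | true => rfl
    | false => rw [h2] at h1; cases h1
  refine ⟨a, b, ha2, ha1, ?_, hlast, ?_⟩
  · intro i hi
    by_contra h1
    have h2 : G.lf (G.nxt ((sq G)^[i] (G.op p))) = true := by simpa using h1
    set x := G.nxt ((sq G)^[i] (G.op p)) with hx
    have h3 := hc _ (same_iter i _) h2
    have h4 : G.op x = (sq G)^[i + 1] (G.op p) := by
      rw [Function.iterate_succ_apply']
      rfl
    have h5 : σ.SameCycle (G.op p) (G.op x) := by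
      rw [h4]
      exact same_iter _ _
    have h6 := hsum x h2 h3 h5
    rw [hyb x h3, hyc _ h5, ← h00] at h6
    have h7 : 1 ≤ cnt G (b + 1) (G.op p) (G.op x) := cnt_pos (i := i + 1) (by omega) h4.symm
    obtain ⟨k, hk, h8⟩ := cnt_exists (G := G) (n := a + 1) (x := p) (f := x) (by omega)
    rcases Nat.eq_zero_or_pos k with h9 | h9
    · subst h9
      have h10 : p = x := h8
      rw [← h10] at h4
      exact hpb (i + 1) (by omega) (by omega) h4.symm
    · obtain ⟨k, rfl⟩ : ∃ m, k = m + 1 := ⟨k - 1, by omega⟩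
      rw [Function.iterate_succ_apply'] at h8
      have h11 := ha2 k (by omega)
      have h12 := lf_sq ho ((sq G)^[k] p)
      rw [h8, h11, h2] at h12
      cases h12
  · rw [← hb1, Function.iterate_succ_apply']

end Pool.Agent.Helper76.S4.Ann
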