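import Pool.Agent.Helper76.S4.SepW
import Pool.Agent.Helper57.S4.Rigid

/-!
# MIX: rigid circles of type (2, 1)
-/

set_option autoImplicit false

namespace Pool.Agent.Helper76.S4.SepW

open Pool.Agent.Helper85.Exp Pool.Agent.Helper2.PD Pool.Agent.Helper43.Pln Pool.Agent.Helper57.S4
open Pool.Agent.Helper69.S4 (Sec)

variable {P : Type} [Fintype P] {G : Sh P}

/-- **Rigid circles, type (2, 1).** The neighbours of the circle of `α` on the side `d` are the circles of `u` and of `v`, and the circle of `v` meets only the circle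
of `α`; on the other side there is only the circle of `w`; the far sides of `u`, `v`, `w` are zero faces. Then every colouring is constant on both sides of
the circle of `α`. -/
theorem rigid21 (hG : Plane G) {s : ℂ} (hs : Sec s) {c : Face G → ℂ} (hc : Col G s c) {d : Bool} {α u v w : P}
    (hUV : ∀ e, S G α e → G.lf (G.nxt e) = d → S G u (G.nxt e) ∨ S G v (G.nxt e))
    (hne : ¬ S G u v)
    (hU : ∃ e, S G α e ∧ G.lf (G.nxt e) = d ∧ S G u (G.nxt e))
    (hV : ∃ e, S G α e ∧ G.lf (G.nxt e) = d ∧ S G v (G.nxt e))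
    (hVA : ∀ f, S G v f → S G α (G.nxt f))
    (hW : ∀ e, S G α e → G.lf (G.nxt e) = !d → S G w (G.nxt e))
    (hW1 : ∃ e, S G α e ∧ G.lf (G.nxt e) = !d)
    (ku : kf G (Fc G d u) = 0) (kv : kf G (Fc G d v) = 0) (kw : kf G (Fc G (!d) w) = 0)
    {e : P} (he : S G α e) (d' : Bool) : c (Fc G d' (sq G e)) = c (Fc G d' e) := by
  have ho := hG.cross
  obtain ⟨a, M, j, h1, h2, h3, h4, h5, h6, h7, h8, h9⟩ := sep hG hUV hne hU hV hVA
  have hSi : ∀ i, S G α ((sq G)^[i] a) := fun i => h1.trans (S_iter a i)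
  have hk := loc_T ho hs hc h2 h3 (p₁ := Fc G d u) (p₂ := Fc G d v) (q := Fc G (!d) w) h4 h5
    (by
      obtain ⟨x, hx, hx1⟩ := hW1
      obtain ⟨k, hk, rfl⟩ := h9 x hx
      exact ⟨k, hk, hx1⟩)
    (fun k hk hl hkj => cap_same ho ku (h6 k hk hl hkj))
    (fun k hk hl hkj => cap_same ho kv (h7 k hk hl hkj))
    (fun k hk hl => cap_same ho kw (hW _ (hSi k) hl)) h8
  exact period_red (F := fun e => c (Fc G d' e)) (by omega) h3 (fun k hkM => hk k hkM d') (h1.symm.trans he)

end Pool.Agent.Helper76.S4.SepW
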