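import Pool.Agent.Helper60.S4.Defs

/-!
# Separation (leaf (D) of the project S4)

On the left side of a circle `X` with two left neighbours `a`, `b` all crossings with `b` come before all crossings with `a`, if the
cut edge of `X` lies between a crossing with `a` and a crossing with `b`.
-/

set_option autoImplicit false

namespace Pool.Agent.Helper76.S4

open Pool.Agent.Helper60.S4

variable {P F : Type} (S : Sy P F)

theorem ci_iter (p : P) (k : ℕ) : S.ci (S.sg^[k] p) = S.ci p := by
  induction k with
  | zero => rfl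
  | succ k ih =>
    rw [Function.iterate_succ_apply', S.ci_sg, ih]

/-- the length of the circle -/
noncomputable def len (c : P) : ℕ := Function.minimalPeriod S.sg c

theorem iter_len (c : P) : S.sg^[len S c] c = c :=
  Function.iterate_minimalPeriod

variable [Finite P]

theorem len_pos (c : P) : 0 < len S c :=
  Function.minimalPeriod_pos_of_mem_periodicPts (S.sg.injective.mem_periodicPts c)

theorem exists_idx {c p : P} (h : S.ci p = S.ci c) : ∃ i, i < len S c ∧ S.sg^[i + 1] c = p := by
  have h1 : Equiv.Perm.SameCycle S.sg p c := Quotient.exact h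
  obtain ⟨m, hm⟩ := h1.symm.exists_nat_pow_eq
  have h2 : S.sg^[m % len S c] c = p := by
    rw [← hm, ← Equiv.Perm.iterate_eq_pow]
    exact Function.iterate_mod_minimalPeriod_eq
  have h3 : m % len S c < len S c := Nat.mod_lt _ (len_pos S c)
  rcases Nat.eq_zero_or_pos (m % len S c) with h4 | h4
  · refine ⟨len S c - 1, by have := len_pos S c; omega, ?_⟩
    rw [Nat.sub_add_cancel (len_pos S c), iter_len, ← h2, h4]
    rfl
  · refine ⟨m % len S c - 1, by omega, ?_⟩
    rw [Nat.sub_add_cancel h4, h2]

section time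

variable {S} {C : Finset P} {τ : P → ℕ}

theorem step_lt (hT : S.Td C τ) {c : P} (hc : c ∈ C) {i : ℕ} (hi : i + 1 < len S c) :
    τ (S.sg^[i + 1] c) < τ (S.sg^[i + 2] c) := by
  have h1 : S.sg^[i + 1] c ∉ C := by
    intro h
    have h2 := hT.un _ h _ hc (ci_iter S c (i + 1))
    have h3 : len S c ≤ i + 1 := Function.IsPeriodicPt.minimalPeriod_le (Nat.succ_pos i) h2
    omega
  have h2 := hT.tnx _ h1
  rw [← Function.iterate_succ_apply' S.sg] at h2
  exact h2

theorem mono (hT : S.Td C τ) {c : P} (hc : c ∈ C) {i j : ℕ} (hij : i < j) (hj : j < len S c) :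
    τ (S.sg^[i + 1] c) < τ (S.sg^[j + 1] c) := by
  induction j with
  | zero => omega
  | succ j ih =>
    have h1 := step_lt hT hc (i := j) (by omega)
    rcases Nat.lt_or_ge i j with h2 | h2
    · exact (ih h2 (by omega)).trans h1
    · have : i = j := by omega
      subst this
      exact h1

theorem mono_iff (hT : S.Td C τ) {c : P} (hc : c ∈ C) {i j : ℕ} (hi : i < len S c) (hj : j < len S c) :
    τ (S.sg^[i + 1] c) < τ (S.sg^[j + 1] c) ↔ i < j := by
  constructor
  · intro h
    rcases Nat.lt_trichotomy i j with h1 | h1 | h1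
    · exact h1
    · subst h1
      omega
    · have := mono hT hc h1 hi
      omega
  · exact fun h => mono hT hc h hj

/-- The cut edge is last. -/
theorem le_cut (hT : S.Td C τ) {c p : P} (hc : c ∈ C) (h : S.ci p = S.ci c) : τ p ≤ τ c := by
  obtain ⟨i, hi, rfl⟩ := exists_idx S h
  have h1 := len_pos S c
  have h2 : S.sg^[(len S c - 1) + 1] c = c := by
    rw [Nat.sub_add_cancel h1, iter_len]
  rcases Nat.lt_or_ge i (len S c - 1) with h3 | h3
  · have := mono hT hc h3 (by omega)
    rw [h2] at this
    exact this.le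
  · have : i = len S c - 1 := by omega
    rw [this, h2]

/-- Two steps of one circle: the window function jumps only at its ends. -/
theorem prev_cases (hT : S.Td C τ) {p u : P} (h : S.ci p = S.ci u) :
    (S.sg.symm p ∈ C ∧ τ p ≤ τ u ∧ τ u ≤ τ (S.sg.symm p)) ∨
      (S.sg.symm p ∉ C ∧ τ (S.sg.symm p) < τ p ∧ (τ u < τ p → τ u ≤ τ (S.sg.symm p))) := by
  obtain ⟨c, hc, hcu⟩ := hT.ex (S.ci u)
  obtain ⟨i, hi, hip⟩ := exists_idx S (c := c) (p := p) (by rw [h, hcu])
  obtain ⟨j, hj, hju⟩ := exists_idx S (c := c) (p := u) hcu.symm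
  have h5 : S.sg.symm p = S.sg^[i] c := by
    rw [← hip, Function.iterate_succ_apply', Equiv.symm_apply_apply]
  rcases Nat.eq_zero_or_pos i with h0 | h0
  · left
    subst h0
    have h6 : S.sg.symm p = c := h5
    rw [h6]
    refine ⟨hc, ?_, le_cut hT hc hcu.symm⟩
    rcases Nat.eq_zero_or_pos j with h7 | h7
    · subst h7
      rw [← hip, ← hju]
    · rw [← hip, ← hju]
      exact (mono hT hc h7 hj).le
  · right
    obtain ⟨i, rfl⟩ : ∃ k, i = k + 1 := ⟨i - 1, by omega⟩
    have h8 := step_lt hT hc hi
    have h9 : S.sg.symm p ∉ C := by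
      intro h9
      have h10 := hT.un _ h9 _ hc (by rw [S.ci_symm, h, hcu])
      rw [h5] at h10
      have h3 : len S c ≤ i + 1 := Function.IsPeriodicPt.minimalPeriod_le (Nat.succ_pos i) h10
      omega
    refine ⟨h9, ?_, ?_⟩
    · rw [h5, ← hip]
      exact h8
    · intro h10
      rw [← hip, ← hju, mono_iff hT hc hj hi] at h10
      rw [h5, ← hju]
      rcases Nat.lt_or_ge j i with h11 | h11
      · exact (mono hT hc h11 (by omega)).le
      · have : j = i := by omega
        rw [this]

end time

/-- (D) separation -/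
theorem separated {P F : Type} [Fintype P] [DecidableEq P] (S : Sy P F) (hS : S.Good) {C : Finset P} {τ : P → ℕ} (hT : S.Td C τ) (X a b : S.Ci) (hab : a ≠ b) (hXa : X ≠ a) (hXb : X ≠ b)
    (hr : ∀ j, S.Adj X j → j ≠ b ∧ j ≠ X) (_hl : ∀ j, S.Adj j X → j = a ∨ j = b)
    (e : P) (heC : e ∈ C) (heX : S.ci e = X) (hel : S.lf e = false) (hea : S.ci (S.op e) = a)
    (n : ℕ) (hn : ∀ i, 0 < i → i ≤ n → S.lf (S.sg^[i] e) = true) (_hn1 : S.lf (S.sg^[n + 1] e) = false)
    (hnb : S.ci (S.op (S.sg^[n + 1] e)) = b)
    (p q : P) (hp : S.lf p = false) (_hq : S.lf q = false) (hpX : S.ci p = X) (hqX : S.ci q = X)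
    (hpa : S.ci (S.op p) = a) (hqb : S.ci (S.op q) = b) : τ q < τ p := by
  classical
  by_contra hcon
  -- the first crossing on the left side
  set x1 := S.sg^[n + 1] e with hx1
  have hx1X : S.ci x1 = X := by rw [hx1, ci_iter, heX]
  have hnN : n + 1 ≤ len S e := by
    by_contra h
    have h1 := hn (len S e) (len_pos S e) (by omega)
    rw [iter_len, hel] at h1
    cases h1
  have hfirst : ∀ r, S.ci r = X → S.lf r = false → τ x1 ≤ τ r := by
    intro r hr1 hr2
    obtain ⟨i, hi, rfl⟩ := exists_idx S (c := e) (p := r) (by rw [hr1, heX])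
    have h1 : n ≤ i := by
      by_contra h
      have := hn (i + 1) (by omega) (by omega)
      rw [this] at hr2
      cases hr2
    rcases Nat.lt_or_ge n i with h2 | h2
    · exact (mono hT heC h2 hi).le
    · have : n = i := by omega
      rw [hx1, this]
  have hne : ∀ u v : P, S.ci u = X → S.ci v = X → S.ci (S.op u) ≠ S.ci (S.op v) → τ u ≠ τ v := by
    intro u v hu hv huv h
    rcases hT.tinj u v h with h1 | h1
    · exact huv (by rw [h1])
    · rw [h1] at hv huv
      rw [S.op_op] at huv
      exact huv (by rw [hv, hu])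
  have hpq : τ p < τ q := by
    have h1 := hne p q hpX hqX (by rw [hpa, hqb]; exact hab)
    omega
  have h1p : τ x1 < τ p := by
    have h1 := hne x1 p hx1X hpX (by rw [hpa, hnb]; exact hab.symm)
    have h2 := hfirst p hpX hp
    omega
  -- the circulation
  set w : P → ℤ := fun f => if τ x1 ≤ τ f ∧ τ f < τ q then 1 else 0 with hw
  set k : P → ℤ := fun f => if S.ci f = X then 1 else if S.ci f = b then -1 else 0 with hk
  set d : P → ℤ := fun f => (if τ f = τ x1 then 1 else 0) - (if τ f = τ q then 1 else 0) with hd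
  have hjump : ∀ r u v : P, S.ci r = S.ci u → S.ci r = S.ci v → τ u = τ x1 → τ v = τ q →
      w (S.sg.symm r) = w r - d r := by
    intro r u v hru hrv hu hv
    have h1 := prev_cases hT (p := r) (u := u) hru
    have h2 := prev_cases hT (p := r) (u := v) hrv
    simp only [hw, hd]
    rw [hu] at h1
    rw [hv] at h2
    rcases h1 with ⟨h1, h3, h4⟩ | ⟨h1, h3, h4⟩
    · rcases h2 with ⟨h5, h6, h7⟩ | ⟨h5, h6, h7⟩
      · split_ifs <;> omega
      · exact absurd h1 h5
    · rcases h2 with ⟨h5, h6, h7⟩ | ⟨h5, h6, h7⟩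
      · exact absurd h5 h1
      · split_ifs <;> omega
  have hks : ∀ r, k (S.sg.symm r) = k r := by
    intro r
    simp only [hk, S.ci_symm]
  have hkj : ∀ r, k r * w (S.sg.symm r) = k r * (w r - d r) := by
    intro r
    by_cases h1 : S.ci r = X
    · rw [hjump r x1 q (by rw [h1, hx1X]) (by rw [h1, hqX]) rfl rfl]
    · by_cases h2 : S.ci r = b
      · rw [hjump r (S.op x1) (S.op q) (by rw [h2, hnb]) (by rw [h2, hqb]) (hT.top _) (hT.top _)]
      · have : k r = 0 := by
          simp only [hk, if_neg h1, if_neg h2]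
        rw [this]
        ring
  have hkk : ∀ r, (k r + k (S.op r)) * d r = 0 := by
    intro r
    have key : ∀ u : P, S.ci u = X → S.ci (S.op u) = b → τ r = τ u → k r + k (S.op r) = 0 := by
      intro u hu hub hru
      have h0 : k u + k (S.op u) = 0 := by
        simp only [hk, hu, hub, if_neg hXb.symm, if_true]
        norm_num
      rcases hT.tinj r u hru with h1 | h1
      · rw [← h1]
        exact h0
      · rw [h1, S.op_op] at h0
        rw [add_comm]
        exact h0
    by_cases h1 : τ r = τ x1
    · rw [key x1 hx1X hnb h1, zero_mul]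
    · by_cases h2 : τ r = τ q
      · rw [key q hqX hqb h2, zero_mul]
      · have : d r = 0 := by
          simp only [hd, if_neg h1, if_neg h2]
          norm_num
        rw [this, mul_zero]
  have hcirc : S.Circ fun f => k f * w f := by
    intro r
    have h1 := hkj r
    have h2 := hkj (S.op r)
    have h3 := hkk r
    have h4 : d (S.op r) = d r := by
      simp only [hd, hT.top]
    simp only [hks]
    rw [h1, h2, h4]
    linear_combination -h3
  obtain ⟨h, hh'⟩ := hS.flow _ hcirc
  have hh : ∀ f, k f * w f = h (S.L f) - h (S.R f) := hh'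
  -- values of `h`
  have hy0 : ∀ f, S.ci f ≠ X → S.ci f ≠ b → h (S.L f) = h (S.R f) := by
    intro f h1 h2
    have h3 := hh f
    have : k f = 0 := by
      simp only [hk, if_neg h1, if_neg h2]
    rw [this, zero_mul] at h3
    omega
  -- the right side of `X`
  have hRstep : ∀ f, S.ci f = X → h (S.R (S.sg f)) = h (S.R f) := by
    intro f hf
    have hf' : S.ci (S.sg f) = X := by rw [S.ci_sg, hf]
    have e0 : S.sg.symm (S.sg f) = f := Equiv.symm_apply_apply _ _
    cases hl : S.lf (S.sg f) with
    | false =>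
      have h1 := S.east _ hl
      rw [e0] at h1
      rw [h1]
    | true =>
      have hs := S.south _ hl
      have hno := S.north _ hl
      rw [e0] at hs
      obtain ⟨hj1, hj2⟩ := hr (S.ci (S.op (S.sg f))) ⟨S.sg f, hl, hf', rfl⟩
      have hlo : S.lf (S.op (S.sg f)) = false := by rw [S.lf_op, hl]; rfl
      have hea' := S.east _ hlo
      rw [hs, hno, hy0 (S.op (S.sg f)) hj2 hj1, hy0 (S.sg.symm (S.op (S.sg f))) (by rw [S.ci_symm]; exact hj2)
        (by rw [S.ci_symm]; exact hj1), hea']
  have hRit : ∀ i : ℕ, h (S.R (S.sg^[i] e)) = h (S.R e) := by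
    intro i
    induction i with
    | zero => rfl
    | succ i ih =>
      rw [Function.iterate_succ_apply', hRstep _ (by rw [ci_iter, heX]), ih]
  have hRX : h (S.R p) = h (S.R e) := by
    obtain ⟨i, _, rfl⟩ := exists_idx S (c := e) (p := p) (by rw [hpX, heX])
    exact hRit _
  -- the circle `a`
  have hastep : ∀ f, S.ci f = a → h (S.L (S.sg f)) = h (S.L f) := by
    intro f hf
    have hf' : S.ci (S.sg f) = a := by rw [S.ci_sg, hf]
    have e0 : S.sg.symm (S.sg f) = f := Equiv.symm_apply_apply _ _
    cases hl : S.lf (S.sg f) with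
    | true =>
      have h1 := S.west _ hl
      rw [e0] at h1
      rw [h1]
    | false =>
      have h1 := S.east _ hl
      rw [e0] at h1
      rw [hy0 (S.sg f) (by rw [hf']; exact hXa.symm) (by rw [hf']; exact hab),
        hy0 f (by rw [hf]; exact hXa.symm) (by rw [hf]; exact hab), h1]
  have hait : ∀ i : ℕ, h (S.L (S.sg^[i] (S.op e))) = h (S.L (S.op e)) := by
    intro i
    induction i with
    | zero => rfl
    | succ i ih =>
      rw [Function.iterate_succ_apply', hastep _ (by rw [ci_iter, hea]), ih]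
  have haa : h (S.L (S.op p)) = h (S.L (S.op e)) := by
    obtain ⟨i, _, h2⟩ := exists_idx S (c := S.op e) (p := S.op p) (by rw [hpa, hea])
    rw [← h2]
    exact hait _
  -- the faces on the left of `X`
  have hLX : ∀ r, S.lf r = false → S.ci (S.op r) = a → h (S.L r) = h (S.L (S.op r)) := by
    intro r hr1 hr2
    have h1 : S.lf (S.op r) = true := by rw [S.lf_op, hr1]; rfl
    have h2 := S.north _ h1
    rw [S.op_op] at h2
    rw [← h2, ← hy0 (S.op r) (by rw [hr2]; exact hXa.symm) (by rw [hr2]; exact hab)]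
  have he1 := hh e
  have hp1 := hh p
  have hke : k e = 1 := by simp only [hk, if_pos heX]
  have hkp : k p = 1 := by simp only [hk, if_pos hpX]
  have hwe : w e = 0 := by
    have := le_cut hT heC (p := q) (by rw [hqX, heX])
    simp only [hw]
    rw [if_neg]
    omega
  have hwp : w p = 1 := by
    simp only [hw]
    rw [if_pos]
    exact ⟨h1p.le, hpq⟩
  rw [hke, hwe, hLX e hel hea] at he1
  rw [hkp, hwp, hLX p hp hpa, haa, hRX] at hp1
  omega

end Pool.Agent.Helper76.S4
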