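import Pool.Agent.Helper76.S4.Ann
import Pool.Agent.Helper57.S4.OneG

/-!
# Two neighbours on one side of a Seifert circle, one of them a leaf

Let `u`, `v` be two circles on the side `d` of the circle of `α`, and let `v` meet no other circle. Then along the circle of `α` the crossings
with `u` and with `v` are separated, and the face of `α` (side `d`) at the two changes is the same.
-/

set_option autoImplicit false

namespace Pool.Agent.Helper76.S4.SepW

open Pool.Agent.Helper85.Exp Pool.Agent.Helper2.PD Pool.Agent.Helper43.Pln Pool.Agent.Helper57.S4 Pool.Agent.Helper76.S4.Ann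

variable {P : Type} {G : Sh P}

/-- the sign of a side -/
def sg (d : Bool) : ℤ := if d = true then 1 else -1

theorem sg_sq (d : Bool) : sg d * sg d = 1 := by cases d <;> rfl

theorem side (h : Face G → ℤ) (d : Bool) (e : P) : h (Lf G e) - h (Rf G e) = sg d * (h (Fc G d e) - h (Fc G (!d) e)) := by
  cases d with
  | true =>
    show _ = 1 * (h (Lf G e) - h (Rf G e))
    ring
  | false =>
    show _ = -1 * (h (Rf G e) - h (Lf G e))
    ring

theorem stepF (ho : ∀ i, G.op i ≠ i) {d : Bool} {e : P} (h : G.lf (G.nxt e) = d) : Fc G (!d) (sq G e) = Fc G (!d) e := by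
  cases d with
  | true => exact left_E ho h
  | false => exact right_W ho h

/-- the edge of the other circle which enters the crossing at the end of `e` -/
def en (G : Sh P) (e : P) : P := (seifert G).symm (G.nxt e)

theorem sq_en (e : P) : sq G (en G e) = G.nxt e := Equiv.apply_symm_apply (seifert G) _

theorem nxt_en (e : P) : G.nxt (en G e) = sq G e := by
  show G.nxt (G.nxt.symm (G.op (G.nxt e))) = sq G e
  rw [Equiv.apply_symm_apply]
  rfl

/-- the face behind the crossing, from the other circle -/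
theorem S_other (ho : ∀ i, G.op i ≠ i) {d : Bool} {e : P} (h : G.lf (G.nxt e) = d) : Fc G (!d) (en G e) = Fc G d e := by
  cases d with
  | true =>
    have s1 := corner_S h
    rw [Equiv.symm_apply_apply] at s1
    exact s1.symm
  | false =>
    have s1 := right_S ho h
    exact s1

theorem lf_en (ho : ∀ i, G.op i ≠ i) (e : P) : G.lf (G.nxt (en G e)) = !G.lf (G.nxt e) := by
  rw [nxt_en, lf_sq ho]

/-- the outer side of the other circle -/
theorem cap_other (ho : ∀ i, G.op i ≠ i) {d : Bool} {e : P} (h : G.lf (G.nxt e) = d) : Fc G d (G.nxt e) = Fc G d (en G e) := by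
  have h1 : G.lf (G.nxt (en G e)) = !d := by rw [lf_en ho, h]
  have h2 := stepF ho h1
  rw [sq_en, Bool.not_not] at h2
  exact h2

variable [Fintype P]

theorem S_en {x e : P} : S G x (en G e) ↔ S G x (G.nxt e) := by
  have h := same_sq (G := G) (x := x) (e := en G e)
  rw [sq_en] at h
  exact h.symm

omit [Fintype P] in
theorem iter_succ (i : ℕ) (a : P) : sq G ((sq G)^[i] a) = (sq G)^[i + 1] a := (Function.iterate_succ_apply' (sq G) i a).symm

theorem ne_not (d : Bool) : d ≠ !d := by cases d <;> decide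

theorem eq_not {b d : Bool} (h : b ≠ d) : b = !d := by cases b <;> cases d <;> simp_all

section levels

variable {κ : Face G → ℤ} (hκ : ∀ i, κ (Lf G i) = κ (Rf G i) + 1)

include hκ

theorem lev (ho : ∀ i, G.op i ≠ i) {x e : P} (he : S G x e) : κ (Lf G e) = κ (Lf G x) := by
  refine same_ind (x := x) (p := fun e => κ (Lf G e) = κ (Lf G x)) rfl ?_ he
  intro e _ ih
  cases hl : G.lf (G.nxt e) with
  | false => rw [right_W ho hl]; exact ih
  | true =>
    have h1 := hκ (sq G e)
    have h2 := hκ e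
    rw [left_E ho hl] at h1
    rw [h1, ← h2, ih]

theorem lev_other (ho : ∀ i, G.op i ≠ i) {d : Bool} {x e : P} (he : S G x e) (h : G.lf (G.nxt e) = d) :
    κ (Lf G (G.nxt e)) = κ (Lf G x) + sg d := by
  have h0 : κ (Lf G (sq G e)) = κ (Lf G x) := lev hκ ho (S_sq he)
  have h3 := N_other ho h
  cases d with
  | true =>
    have h1 := hκ (G.nxt e)
    have h2 : Rf G (G.nxt e) = Lf G (sq G e) := h3
    rw [h2, h0] at h1
    rw [h1]
    rfl
  | false =>
    have h1 := hκ (sq G e)
    have h2 : Lf G (G.nxt e) = Rf G (sq G e) := h3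
    rw [h2]
    show κ (Rf G (sq G e)) = κ (Lf G x) + (-1)
    omega

end levels

/-- **Separation and the equality of the two faces.** -/
theorem sep (hG : Plane G) {d : Bool} {α u v : P}
    (hUV : ∀ e, S G α e → G.lf (G.nxt e) = d → S G u (G.nxt e) ∨ S G v (G.nxt e))
    (hne : ¬ S G u v)
    (hU : ∃ e, S G α e ∧ G.lf (G.nxt e) = d ∧ S G u (G.nxt e))
    (hV : ∃ e, S G α e ∧ G.lf (G.nxt e) = d ∧ S G v (G.nxt e))
    (hVA : ∀ f, S G v f → S G α (G.nxt f)) :
    ∃ (a : P) (M j : ℕ), S G α a ∧ j + 1 < M ∧ (sq G)^[M] a = a ∧ G.lf (G.nxt ((sq G)^[j] a)) = d ∧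
      (∃ k < M, j < k ∧ G.lf (G.nxt ((sq G)^[k] a)) = d) ∧
      (∀ k < M, G.lf (G.nxt ((sq G)^[k] a)) = d → k ≤ j → S G u (G.nxt ((sq G)^[k] a))) ∧
      (∀ k < M, G.lf (G.nxt ((sq G)^[k] a)) = d → j < k → S G v (G.nxt ((sq G)^[k] a))) ∧
      Fc G d ((sq G)^[j + 1] a) = Fc G d a ∧ ∀ e, S G α e → ∃ k < M, (sq G)^[k] a = e := by
  classical
  have ho := hG.cross
  obtain ⟨κ, hκ⟩ := exists_kappa hG.conn ho hG.genus
  -- the level of `v` and of `u`
  have hsgd : sg d ≠ 0 := by cases d <;> decide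
  have hlv : κ (Lf G v) = κ (Lf G α) + sg d := by
    obtain ⟨e, h1, h2, h3⟩ := hV
    rw [← lev_other hκ ho h1 h2, lev hκ ho h3]
  have hlu : κ (Lf G u) = κ (Lf G α) + sg d := by
    obtain ⟨e, h1, h2, h3⟩ := hU
    rw [← lev_other hκ ho h1 h2, lev hκ ho h3]
  have nAv : ∀ f, S G α f → ¬ S G v f := fun f h1 h2 => by
    have h3 := lev hκ ho h1
    have h4 := lev hκ ho h2
    omega
  have nAu : ∀ f, S G α f → ¬ S G u f := fun f h1 h2 => by
    have h3 := lev hκ ho h1
    have h4 := lev hκ ho h2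
    omega
  have nuv : ∀ f, S G u f → ¬ S G v f := fun f h1 h2 => hne (h1.trans h2.symm)
  -- the letters of `v` are on the other side
  have hvl : ∀ f, S G v f → G.lf (G.nxt f) = !d := by
    intro f hf
    by_contra h
    have h1 : G.lf (G.nxt f) = d := by
      cases hd : d <;> cases hl : G.lf (G.nxt f) <;> simp_all
    have h2 := lev_other hκ ho hf h1
    have h3 := lev hκ ho (hVA f hf)
    omega
  -- a letter with `v` followed by a letter with `u`
  obtain ⟨e₀, n₀, he₀, hn₀, hlet, hun⟩ : ∃ (e : P) (n : ℕ), S G α e ∧ (G.lf (G.nxt e) = d ∧ S G v (G.nxt e)) ∧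
      (∀ i, 0 < i → i < n + 1 → G.lf (G.nxt ((sq G)^[i] e)) = !d) ∧
      (G.lf (G.nxt ((sq G)^[n + 1] e)) = d ∧ S G u (G.nxt ((sq G)^[n + 1] e))) := by
    obtain ⟨e, h1, h2, h3⟩ := hV
    obtain ⟨e', h1', h2', h3'⟩ := hU
    obtain ⟨n, rfl⟩ := iter_S (h1.symm.trans h1')
    -- the first letter with `u` after `e`
    have hex : ∃ n, G.lf (G.nxt ((sq G)^[n] e)) = d ∧ S G u (G.nxt ((sq G)^[n] e)) := ⟨n, h2', h3'⟩
    obtain ⟨N, hN1, hN2⟩ : ∃ N, (G.lf (G.nxt ((sq G)^[N] e)) = d ∧ S G u (G.nxt ((sq G)^[N] e))) ∧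
        ∀ i < N, ¬ (G.lf (G.nxt ((sq G)^[i] e)) = d ∧ S G u (G.nxt ((sq G)^[i] e))) :=
      ⟨Nat.find hex, Nat.find_spec hex, fun i hi => Nat.find_min hex hi⟩
    have hN0 : 0 < N := by
      rcases Nat.eq_zero_or_pos N with h | h
      · subst h
        exact absurd h3 (nuv _ hN1.2)
      · exact h
    -- the last letter with `v` before it
    have hex2 : ∃ m, m < N ∧ (G.lf (G.nxt ((sq G)^[N - 1 - m] e)) = d) := ⟨N - 1, by omega, by
      rw [Nat.sub_self]; exact h2⟩
    obtain ⟨m, hm1, hm2⟩ : ∃ m, (m < N ∧ (G.lf (G.nxt ((sq G)^[N - 1 - m] e)) = d)) ∧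
        ∀ i < m, ¬ (i < N ∧ (G.lf (G.nxt ((sq G)^[N - 1 - i] e)) = d)) :=
      ⟨Nat.find hex2, Nat.find_spec hex2, fun i hi => Nat.find_min hex2 hi⟩
    have hal : ∀ i, S G α ((sq G)^[i] e) := fun i => h1.trans (S_iter e i)
    refine ⟨(sq G)^[N - 1 - m] e, m, hal _, ⟨hm1.2, ?_⟩, ?_, ?_⟩
    · rcases hUV _ (hal _) hm1.2 with h | h
      · exact absurd ⟨hm1.2, h⟩ (hN2 _ (by omega))
      · exact h
    · intro i hi0 hi1
      rw [← Function.iterate_add_apply]
      have h4 : i + (N - 1 - m) = N - 1 - (m - i) := by omega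
      rw [h4]
      have h5 := hm2 (m - i) (by omega)
      by_contra h6
      refine h5 ⟨by omega, ?_⟩
      cases hd : d <;> cases hl : G.lf (G.nxt ((sq G)^[N - 1 - (m - i)] e)) <;> simp_all
    · rw [← Function.iterate_add_apply]
      have h4 : m + 1 + (N - 1 - m) = N := by omega
      rw [h4]
      exact hN1
  -- the two arcs
  set v₀ := G.nxt e₀ with hv₀
  set a := sq G e₀ with ha
  have hav : G.op v₀ = a := rfl
  have hSv₀ : S G v v₀ := hn₀.2
  have hSa : S G α a := S_sq he₀
  have hSa' : S G α (G.nxt v₀) := hVA _ hSv₀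
  have hme : ∃ m : ℕ, (sq G)^[m + 1] a = G.nxt v₀ := by
    obtain ⟨i, hi, -, h1⟩ := (show (seifert G).SameCycle a (G.nxt v₀) from hSa.symm.trans hSa').exists_pow_eq''
    refine ⟨i - 1, ?_⟩
    rw [Nat.sub_add_cancel hi, iter_eq]
    exact h1
  obtain ⟨m, hm1, hm2⟩ : ∃ m : ℕ, (sq G)^[m + 1] a = G.nxt v₀ ∧ ∀ i < m, (sq G)^[i + 1] a ≠ G.nxt v₀ :=
    ⟨Nat.find hme, Nat.find_spec hme, fun i hi => Nat.find_min hme hi⟩
  have hret : ∀ i, 0 < i → i < m + 1 → (sq G)^[i] a ≠ a := by
    intro i h0 h1 h2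
    have h3 : (sq G)^[m - i + 1] a = G.nxt v₀ := by
      have h4 : (m - i + 1) + i = m + 1 := by omega
      have h5 := Function.iterate_add_apply (sq G) (m - i + 1) i a
      rw [h2, h4, hm1] at h5
      exact h5.symm
    exact hm2 _ (by omega) h3
  have hSi : ∀ i, S G α ((sq G)^[i] a) := fun i => hSa.trans (S_iter a i)
  set y : P → ℤ := fun f => cnt G 1 v₀ f - cnt G (m + 1) a f with hy
  have hcirc : Circ G y := by
    intro r
    have e1 : G.nxt.symm r = (seifert G).symm (G.op r) := by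
      show G.nxt.symm r = G.nxt.symm (G.op (G.op r))
      rw [G.op_op]
    have e2 : G.nxt.symm (G.op r) = (seifert G).symm r := rfl
    have e4 : ∀ p q : P, (G.op p = q) ↔ (p = G.op q) := fun p q =>
      ⟨fun h => by rw [← h, G.op_op], fun h => by rw [h, G.op_op]⟩
    have e5 : (sq G)^[1] v₀ = G.op (G.nxt v₀) := rfl
    have hm1' : (sq G)^[m + 1] (G.op v₀) = G.nxt v₀ := hm1
    rw [e1, e2]
    simp only [hy, cnt_prev, hm1', e5, ← hav, e4, G.op_op]
    ring
  obtain ⟨h, hh⟩ := circ_int hG.conn ho hG.genus y hcirc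
  -- values of `y`
  have hyA : ∀ f, S G α f → y f = - cnt G (m + 1) a f := by
    intro f hf
    have : cnt G 1 v₀ f = 0 := cnt_zero fun i _ hi => nAv f hf (hSv₀.trans (by rw [← hi]; exact S_iter _ _))
    simp only [hy, this, zero_sub]
  have hyV : ∀ f, S G v f → y f = cnt G 1 v₀ f := by
    intro f hf
    have : cnt G (m + 1) a f = 0 := cnt_zero fun i _ hi => nAv f (by rw [← hi]; exact hSi i) hf
    simp only [hy, this, sub_zero]
  have hy0 : ∀ f, ¬ S G α f → ¬ S G v f → h (Fc G d f) = h (Fc G (!d) f) := by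
    intro f h1 h2
    have h3 : cnt G 1 v₀ f = 0 := cnt_zero fun i _ hi => h2 (hSv₀.trans (by rw [← hi]; exact S_iter _ _))
    have h4 : cnt G (m + 1) a f = 0 := cnt_zero fun i _ hi => h1 (by rw [← hi]; exact hSi i)
    have h5 := hh f
    simp only [hy, h3, h4] at h5
    rw [side h d f] at h5
    have h6 : sg d * sg d = 1 := sg_sq d
    have h7 : h (Fc G d f) - h (Fc G (!d) f) = 0 := by
      have : sg d * (sg d * (h (Fc G d f) - h (Fc G (!d) f))) = 0 := by rw [← h5]; ring
      rw [← mul_assoc, h6, one_mul] at this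
      exact this
    omega
  -- the far side of `α`
  have hFA : ∀ e, S G α e → h (Fc G (!d) e) = h (Fc G (!d) α) := by
    intro e he
    refine same_ind (x := α) (p := fun e => h (Fc G (!d) e) = h (Fc G (!d) α)) rfl ?_ he
    intro e he ih
    by_cases hl : G.lf (G.nxt e) = d
    · rw [stepF ho hl]; exact ih
    · have hl' : G.lf (G.nxt e) = !d := by
        cases hd : d <;> cases hl2 : G.lf (G.nxt e) <;> simp_all
      have k1 := lev_other hκ ho he hl'
      have k2 : sg (!d) = - sg d := by cases d <;> rfl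
      rw [k2] at k1
      have n1 : ¬ S G α (G.nxt e) := fun h1 => by
        have := lev hκ ho h1
        omega
      have n2 : ¬ S G v (G.nxt e) := fun h1 => by
        have := lev hκ ho h1
        omega
      have n3 : ¬ S G α (en G e) := fun h1 => n1 (S_en.1 h1)
      have n4 : ¬ S G v (en G e) := fun h1 => n2 (S_en.1 h1)
      have q1 := N_other ho hl'
      have q2 := S_other ho hl'
      have q3 := cap_other ho hl'
      rw [Bool.not_not] at q1 q2
      rw [← q1, hy0 _ n1 n2, q3, ← hy0 _ n3 n4, q2]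
      exact ih
  -- the cap of `v`
  have hFV : ∀ f, S G v f → Fc G d f = Fc G d v := by
    intro f hf
    refine same_ind (x := v) (p := fun f => Fc G d f = Fc G d v) rfl ?_ hf
    intro f hf ih
    have h1 := stepF ho (hvl f hf)
    rw [Bool.not_not] at h1
    rw [h1]
    exact ih
  -- around `u`
  have hFU : ∀ f, S G u f → h (Fc G (!d) f) = h (Fc G (!d) u) := by
    intro f hf
    refine same_ind (x := u) (p := fun f => h (Fc G (!d) f) = h (Fc G (!d) u)) rfl ?_ hf
    intro f hf ih
    have n1 : ¬ S G α f := fun h1 => nAu f h1 hf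
    have n2 : ¬ S G v f := nuv f hf
    have n3 : ¬ S G α (sq G f) := fun h1 => nAu _ h1 (S_sq hf)
    have n4 : ¬ S G v (sq G f) := nuv _ (S_sq hf)
    by_cases hl : G.lf (G.nxt f) = d
    · rw [stepF ho hl]; exact ih
    · have hl' : G.lf (G.nxt f) = !d := by
        cases hd : d <;> cases hl2 : G.lf (G.nxt f) <;> simp_all
      have h1 := stepF ho hl'
      rw [Bool.not_not] at h1
      rw [← hy0 _ n3 n4, h1, hy0 _ n1 n2]
      exact ih
  -- the letters with `v`
  have hVsum : ∀ q, S G v q → S G α (G.op q) → y q + y (G.op q) = sg d * (h (Fc G d v) - h (Fc G (!d) α)) := by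
    intro q hq hq2
    -- `q` is the edge of `v` leaving a crossing, `op q` the edge of `α`
    have e1 : G.nxt ((seifert G).symm (G.op q)) = q := by
      show G.nxt (G.nxt.symm (G.op (G.op q))) = q
      rw [Equiv.apply_symm_apply, G.op_op]
    have e2 : sq G ((seifert G).symm (G.op q)) = G.op q := Equiv.apply_symm_apply (seifert G) _
    have e3 : G.lf (G.nxt ((seifert G).symm (G.op q))) = d := by
      have h1 := hvl ((seifert G).symm q) (hq.trans (by
        have := S_step (G := G) ((seifert G).symm q)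
        have h2 : G.op (G.nxt ((seifert G).symm q)) = q := Equiv.apply_symm_apply (seifert G) _
        rw [h2] at this
        exact this.symm))
      have h2 : G.nxt ((seifert G).symm q) = G.op q := by
        show G.nxt (G.nxt.symm (G.op q)) = G.op q
        rw [Equiv.apply_symm_apply]
      rw [h2, lf_op' ho] at h1
      rw [e1]
      cases hd : d <;> cases hl2 : G.lf q <;> simp_all
    have h1 := N_other ho e3
    rw [e1, e2] at h1
    rw [hh q, hh (G.op q), side h d q, side h d (G.op q), hFV q hq, hFA _ hq2, h1]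
    ring
  have hsum0 : sg d * (h (Fc G d v) - h (Fc G (!d) α)) = 0 := by
    rw [← hVsum v₀ hSv₀ (by rw [hav]; exact hSa), hyV _ hSv₀, hav, hyA _ hSa, cnt_one hret]
    have h1 := cnt_one (G := G) (n := 0) (x := v₀) (fun i h0 h1 => by omega)
    rw [h1]
    ring
  -- no letter with `v` inside the gap
  have hgapV : ∀ i, 0 < i → i < m + 1 → ¬ S G v (G.op ((sq G)^[i] a)) := by
    intro i h0 h1 h2
    set q := G.op ((sq G)^[i] a) with hq
    have hoq : G.op q = (sq G)^[i] a := G.op_op _
    have h3 := hVsum q h2 (by rw [hoq]; exact hSi i)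
    rw [hsum0, hyV q h2, hoq, hyA _ (hSi i)] at h3
    have h4 : 1 ≤ cnt G (m + 1) a ((sq G)^[i] a) := cnt_pos h1 rfl
    obtain ⟨k, hk, h5⟩ := cnt_exists (G := G) (n := 1) (x := v₀) (f := q) (by omega)
    have hk0 : k = 0 := by omega
    subst hk0
    have h6 : v₀ = q := h5
    rw [← h6, hav] at hoq
    exact hret i h0 h1 hoq.symm
  -- the letters with `u`
  have hUval : ∀ e, S G α e → G.lf (G.nxt e) = d → S G u (G.nxt e) →
      y (sq G e) = sg d * (h (Fc G (!d) u) - h (Fc G (!d) α)) := by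
    intro e h1 h2 h3
    rw [hh (sq G e), side h d (sq G e), hFA _ (S_sq h1), ← N_other ho h2, hFU _ h3]
  -- one letter with `u` is in the gap
  have hn₁ : n₀ < m := by
    by_contra hcon
    have h1 : (sq G)^[m] a = (sq G)^[m + 1] e₀ := by rw [Function.iterate_succ_apply]
    -- the letter with `v` at the end of the gap
    have h2 : G.nxt ((sq G)^[m] a) = sq G v₀ := by
      have h3 : sq G ((sq G)^[m] a) = G.nxt v₀ := by rw [iter_succ, hm1]
      have h4 : G.op (G.nxt ((sq G)^[m] a)) = G.nxt v₀ := h3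
      have h5 := congrArg G.op h4
      rw [G.op_op] at h5
      exact h5
    have h6 : G.lf (G.nxt ((sq G)^[m] a)) = d := by
      have h7 := hvl v₀ hSv₀
      rw [h2, lf_sq ho, h7, Bool.not_not]
    rcases Nat.lt_or_ge m n₀ with h7 | h7
    · have h8 := hlet (m + 1) (by omega) (by omega)
      rw [← h1, h6] at h8
      exact ne_not d h8
    · have h8 : m = n₀ := by omega
      have h9 := hun.2
      rw [← h8, ← h1, h2] at h9
      exact nuv _ h9 (S_sq hSv₀)
  have hval : y (sq G ((sq G)^[n₀] a)) ≤ -1 := by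
    rw [iter_succ, hyA _ (hSi _)]
    have : 1 ≤ cnt G (m + 1) a ((sq G)^[n₀ + 1] a) := cnt_pos (by omega) rfl
    omega
  have hun' : G.lf (G.nxt ((sq G)^[n₀] a)) = d ∧ S G u (G.nxt ((sq G)^[n₀] a)) := by
    have h1 : (sq G)^[n₀] a = (sq G)^[n₀ + 1] e₀ := by rw [Function.iterate_succ_apply]
    rw [h1]
    exact hun
  have hUall : ∀ e, S G α e → G.lf (G.nxt e) = d → S G u (G.nxt e) → ∃ i, i < m + 1 ∧ (sq G)^[i] a = sq G e := by
    intro e h1 h2 h3
    have h4 := hUval e h1 h2 h3
    rw [← hUval _ (hSi n₀) hun'.1 hun'.2, hyA _ (S_sq h1)] at h4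
    exact cnt_exists (G := G) (by omega)
  -- the period
  have hper : ∃ M, 0 < M ∧ (sq G)^[M] a = a := by
    obtain ⟨i, hi, -, h1⟩ := (show (seifert G).SameCycle a a from Equiv.Perm.SameCycle.refl _ _).exists_pow_eq''
    exact ⟨i, hi, by rw [iter_eq]; exact h1⟩
  obtain ⟨M, ⟨hM0, hM1⟩, hM2⟩ : ∃ M, (0 < M ∧ (sq G)^[M] a = a) ∧ ∀ i < M, ¬ (0 < i ∧ (sq G)^[i] a = a) :=
    ⟨Nat.find hper, Nat.find_spec hper, fun i hi => Nat.find_min hper hi⟩
  have hmM : m < M := by
    by_contra hcon
    exact hret M hM0 (by omega) hM1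
  have hdist : ∀ i k, i < M → k < M → (sq G)^[i] a = (sq G)^[k] a → i = k := by
    have key : ∀ i k, i < k → k < M → (sq G)^[i] a ≠ (sq G)^[k] a := by
      intro i k hik hk h1
      have h2 : (sq G)^[M - k + i] a = a := by
        have h3 := congrArg ((sq G)^[M - k]) h1
        rw [← Function.iterate_add_apply, ← Function.iterate_add_apply, Nat.sub_add_cancel hk.le, hM1] at h3
        exact h3
      exact hM2 (M - k + i) (by omega) ⟨by omega, h2⟩
    intro i k hi hk h1
    rcases Nat.lt_trichotomy i k with h2 | h2 | h2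
    · exact absurd h1 (key i k h2 hk)
    · exact h2
    · exact absurd h1.symm (key k i h2 hi)
  -- letters before `m` on the side `d` are with `u`
  have hbef : ∀ k < m, G.lf (G.nxt ((sq G)^[k] a)) = d → S G u (G.nxt ((sq G)^[k] a)) := by
    intro k hk h1
    rcases hUV _ (hSi k) h1 with h2 | h2
    · exact h2
    · refine absurd ?_ (hgapV (k + 1) (by omega) (by omega))
      rw [Function.iterate_succ_apply', op_sq]
      exact h2
  have haft : ∀ k < M, m ≤ k → G.lf (G.nxt ((sq G)^[k] a)) = d → S G v (G.nxt ((sq G)^[k] a)) := by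
    intro k hk hmk h1
    rcases hUV _ (hSi k) h1 with h2 | h2
    · obtain ⟨i, hi, h3⟩ := hUall _ (hSi k) h1 h2
      rw [iter_succ] at h3
      rcases Nat.lt_or_ge (k + 1) M with h4 | h4
      · have := hdist i (k + 1) (by omega) h4 h3
        omega
      · have h5 : k + 1 = M := by omega
        rw [h5, hM1] at h3
        have h6 : i = 0 := by
          rcases Nat.eq_zero_or_pos i with h7 | h7
          · exact h7
          · exact absurd h3 (hret i h7 hi)
        -- the letter of `a` is with `v`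
        have h7 : sq G ((sq G)^[k] a) = sq G e₀ := by
          rw [iter_succ, h5, hM1]
        have h8 := sq_inj h7
        rw [h8] at h2
        exact absurd hn₀.2 (nuv _ h2)
    · exact h2
  -- the letter with `v` at the end of the gap
  have hend : G.nxt ((sq G)^[m] a) = sq G v₀ := by
    have h3 : sq G ((sq G)^[m] a) = G.nxt v₀ := by rw [iter_succ, hm1]
    have h4 : G.op (G.nxt ((sq G)^[m] a)) = G.nxt v₀ := h3
    have h5 := congrArg G.op h4
    rw [G.op_op] at h5
    exact h5
  have hendl : G.lf (G.nxt ((sq G)^[m] a)) = d := by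
    rw [hend, lf_sq ho, hvl v₀ hSv₀, Bool.not_not]
  -- the last letter on the side `d` before `m`
  obtain ⟨j, hj1, hj2, hj3⟩ : ∃ j, j < m ∧ G.lf (G.nxt ((sq G)^[j] a)) = d ∧
      ∀ k, j < k → k < m → G.lf (G.nxt ((sq G)^[k] a)) ≠ d := by
    have hex : ∃ t, t < m ∧ G.lf (G.nxt ((sq G)^[m - 1 - t] a)) = d := ⟨m - 1 - n₀, by omega, by
      have : m - 1 - (m - 1 - n₀) = n₀ := by omega
      rw [this]; exact hun'.1⟩
    obtain ⟨t, ht1, ht2⟩ : ∃ t, (t < m ∧ G.lf (G.nxt ((sq G)^[m - 1 - t] a)) = d) ∧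
        ∀ i < t, ¬ (i < m ∧ G.lf (G.nxt ((sq G)^[m - 1 - i] a)) = d) :=
      ⟨Nat.find hex, Nat.find_spec hex, fun i hi => Nat.find_min hex hi⟩
    refine ⟨m - 1 - t, by omega, ht1.2, fun k hk1 hk2 hk3 => ?_⟩
    refine ht2 (m - 1 - k) (by omega) ⟨by omega, ?_⟩
    have : m - 1 - (m - 1 - k) = k := by omega
    rw [this]
    exact hk3
  refine ⟨a, M, j, hSa, by omega, hM1, hj2, ⟨m, hmM, hj1, hendl⟩, ?_, ?_, ?_, ?_⟩
  · intro k hk h1 h2
    exact hbef k (by omega) h1
  · intro k hk h1 h2
    rcases Nat.lt_or_ge k m with h3 | h3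
    · exact absurd h1 (hj3 k h2 h3)
    · exact haft k hk h3 h1
  · -- the two faces
    have h1 : ∀ t, j + 1 + t ≤ m → Fc G d ((sq G)^[j + 1 + t] a) = Fc G d ((sq G)^[j + 1] a) := by
      intro t
      induction t with
      | zero => intro _; rfl
      | succ t ih =>
        intro ht
        have h2 := hj3 (j + 1 + t) (by omega) (by omega)
        have h3 : G.lf (G.nxt ((sq G)^[j + 1 + t] a)) = !d := eq_not h2
        have h4 := stepF ho h3
        rw [Bool.not_not] at h4
        rw [← Nat.add_assoc, Function.iterate_succ_apply', h4]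
        exact ih (by omega)
    have h2 := h1 (m - (j + 1)) (by omega)
    have h3 : j + 1 + (m - (j + 1)) = m := by omega
    rw [h3] at h2
    rw [← h2, ← S_other ho hendl]
    have h4 : en G ((sq G)^[m] a) = v₀ := by
      unfold en
      rw [hend]
      exact Equiv.symm_apply_apply (seifert G) v₀
    rw [h4]
    exact N_other ho hn₀.1
  · intro e he
    obtain ⟨n, rfl⟩ := iter_S (hSa.symm.trans he)
    refine ⟨n % M, Nat.mod_lt _ hM0, ?_⟩
    conv_rhs => rw [← Nat.mod_add_div n M]
    rw [Function.iterate_add_apply, Function.iterate_mul]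
    congr 1
    exact (Function.iterate_fixed hM1 _).symm

end Pool.Agent.Helper76.S4.SepW
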